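import Pool.Agent.H692R3.Upper

/-! The least number of circles determined by `n` points, for every `n ≥ 18`. -/

namespace Pool.Agent.Results.MP_1f1ca1_co.MinCirclesFrom18

open Pool.Agent.H692R3

/-- For every `n ≥ 18` the least number of circles determined by `n` points of the plane, not all
on a line and not all on a circle, is `C(n-1,2) + 1 - floor((n-1)/2)`. -/
theorem result (n : ℕ) (hn : 18 ≤ n) :
    minCircles n = (n - 1).choose 2 + 1 - (n - 1) / 2 :=
  minCircles_eq hn

end Pool.Agent.Results.MP_1f1ca1_co.MinCirclesFrom18
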